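import Mathlib

/-! Balleans, normality, group ideals. -/

namespace Pool.Agent.MP_405a2c_gt

open scoped Pointwise

variable {X G : Type*}

/-- `E[A] = {y | ∃ a ∈ A, (a, y) ∈ E}`. -/
def nbhd (E : Set (X × X)) (A : Set X) : Set X := {y | ∃ a ∈ A, (a, y) ∈ E}

/-- `B` is bounded in the ballean with entourages `𝓔`. -/
def IsBdd (𝓔 : Set (Set (X × X))) (B : Set X) : Prop := ∃ E ∈ 𝓔, ∃ x, B ⊆ nbhd E {x}

/-- Asymptotically disjoint sets. -/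
def AsympDisjoint (𝓔 : Set (Set (X × X))) (A B : Set X) : Prop :=
  ∀ E ∈ 𝓔, IsBdd 𝓔 (nbhd E A ∩ nbhd E B)

/-- `U` is an asymptotic neighbourhood of `A`. -/
def AsympNhd (𝓔 : Set (Set (X × X))) (A U : Set X) : Prop :=
  ∀ E ∈ 𝓔, IsBdd 𝓔 (nbhd E A \ U)

/-- Normal balleans. -/
def IsNormalBallean (𝓔 : Set (Set (X × X))) : Prop :=
  ∀ A B, AsympDisjoint 𝓔 A B → ∃ U V, AsympNhd 𝓔 A U ∧ AsympNhd 𝓔 B V ∧ Disjoint U V

/-- Group ideals. -/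
structure IsGroupIdeal [Group G] (I : Set (Set G)) : Prop where
  union_mem : ∀ A ∈ I, ∀ B ∈ I, A ∪ B ∈ I
  subset_mem : ∀ A ∈ I, ∀ B, B ⊆ A → B ∈ I
  univ_notMem : Set.univ ∉ I
  finite_mem : ∀ A : Set G, A.Finite → A ∈ I
  mul_inv_mem : ∀ A ∈ I, ∀ B ∈ I, A * B⁻¹ ∈ I

/-- The entourage `E_A = {(x, y) | y ∈ A x ∪ {x}}`. -/
def entourage [Group G] (A : Set G) : Set (G × G) := {p | (∃ a ∈ A, p.2 = a * p.1) ∨ p.2 = p.1}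

/-- `I` has a base that is a chain under inclusion. -/
def HasLinearBase (I : Set (Set X)) : Prop :=
  ∃ 𝓑 ⊆ I, IsChain (· ⊆ ·) 𝓑 ∧ ∀ A ∈ I, ∃ B ∈ 𝓑, A ⊆ B

end Pool.Agent.MP_405a2c_gt
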