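import Pool.Agent.MP_405a2c_gt.Defs

/-! The ideal of relatively compact subsets of a dense subgroup of index two of a compact
metrizable group. -/

namespace Pool.Agent.MP_405a2c_gt

open Set Filter Topology
open scoped Pointwise

section general

variable {G : Type*} [Group G] {I : Set (Set G)}

lemma isBdd_iff (hI : IsGroupIdeal I) (B : Set G) : IsBdd (entourage '' I) B ↔ B ∈ I := by
  constructor
  · rintro ⟨_, ⟨A, hA, rfl⟩, x, hB⟩
    refine hI.subset_mem _ (hI.union_mem _ (hI.mul_inv_mem A hA {x⁻¹}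
      (hI.finite_mem _ (finite_singleton _))) {x} (hI.finite_mem _ (finite_singleton _))) _ ?_
    intro y hy
    obtain ⟨a, rfl, ⟨c, hc, h⟩ | h⟩ := hB hy
    · exact Or.inl ⟨c, hc, a, by simp, h.symm⟩
    · exact Or.inr h
  · intro hB
    exact ⟨_, ⟨B, hB, rfl⟩, 1, fun y hy => ⟨1, rfl, Or.inl ⟨y, hy, by simp⟩⟩⟩

lemma nbhd_mem (hI : IsGroupIdeal I) {A D : Set G} (hA : A ∈ I) (hD : D ∈ I) :
    nbhd (entourage D) A ∈ I := by
  have h1 := hI.mul_inv_mem _ (hI.finite_mem _ (finite_singleton (1 : G))) A hA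
  refine hI.subset_mem _ (hI.union_mem _ (hI.mul_inv_mem D hD _ h1) A hA) _ ?_
  rintro y ⟨a, ha, ⟨c, hc, h⟩ | h⟩
  · exact Or.inl ⟨c, hc, a, by simpa using ha, h.symm⟩
  · exact Or.inr (by rw [show y = a from h]; exact ha)

lemma normal_of_ultranormal (hI : IsGroupIdeal I)
    (h : ∀ A ∉ I, ∀ B ∉ I, ∃ D ∈ I, nbhd (entourage D) A ∩ nbhd (entourage D) B ∉ I) :
    IsNormalBallean (entourage '' I) := by
  intro A B hAB
  have h0 : ∀ C : Set G, AsympNhd (entourage '' I) C univ := fun C E _ => by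
    rw [isBdd_iff hI]
    exact hI.finite_mem _ (by simp)
  have h1 : ∀ C ∈ I, AsympNhd (entourage '' I) C ∅ := by
    rintro C hC _ ⟨D, hD, rfl⟩
    rw [isBdd_iff hI, sdiff_empty]
    exact nbhd_mem hI hC hD
  by_cases hA : A ∈ I
  · exact ⟨∅, univ, h1 A hA, h0 B, by simp⟩
  by_cases hB : B ∈ I
  · exact ⟨univ, ∅, h0 A, h1 B hB, by simp⟩
  obtain ⟨D, hD, hn⟩ := h A hA B hB
  exact absurd ((isBdd_iff hI _).mp (hAB _ ⟨D, hD, rfl⟩)) hn

end general

section compact

variable {K : Type*} [Group K] [TopologicalSpace K] [IsTopologicalGroup K] [CompactSpace K]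
  [T2Space K] [FirstCountableTopology K] (H : Subgroup K)

/-- Subsets of `H` whose closure in `K` stays inside `H`. -/
def relCompact : Set (Set H) := {A | closure (Subtype.val '' A) ⊆ (H : Set K)}

variable {H}

omit [FirstCountableTopology K] in
lemma isGroupIdeal_relCompact (hd : Dense (H : Set K)) {α : K} (hα : α ∉ H) :
    IsGroupIdeal (relCompact H) where
  union_mem A hA B hB := by
    show closure _ ⊆ _
    rw [image_union, closure_union]
    exact union_subset hA hB
  subset_mem A hA B hB := (closure_mono (image_mono hB)).trans hA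
  univ_notMem h := by
    apply hα
    apply h
    rw [image_univ, Subtype.range_coe_subtype]
    exact hd α
  finite_mem A hA := by
    show closure _ ⊆ _
    rw [(hA.image _).isClosed.closure_eq]
    rintro _ ⟨x, -, rfl⟩
    exact x.2
  mul_inv_mem A hA B hB := by
    have hc : IsClosed (closure (Subtype.val '' A) * (closure (Subtype.val '' B))⁻¹ : Set K) :=
      (isClosed_closure.isCompact.mul isClosed_closure.isCompact.inv).isClosed
    refine (closure_minimal ?_ hc).trans ?_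
    · rintro _ ⟨_, ⟨a, ha, b, hb, rfl⟩, rfl⟩
      exact ⟨a, subset_closure ⟨a, ha, rfl⟩, b,
        subset_closure ⟨b⁻¹, hb, rfl⟩, rfl⟩
    · rintro _ ⟨a, ha, b, hb, rfl⟩
      exact H.mul_mem (hA ha) (H.inv_mem_iff.mp (hB hb))

omit [IsTopologicalGroup K] [CompactSpace K] [T2Space K] in
lemma exists_seq {A : Set H} (hA : A ∉ relCompact H) :
    ∃ α ∉ H, ∃ a : ℕ → H, (∀ n, a n ∈ A) ∧ Tendsto (fun n => (a n : K)) atTop (𝓝 α) := by
  obtain ⟨α, h1, h2⟩ := not_subset.mp hA
  obtain ⟨x, hx, hlim⟩ := mem_closure_iff_seq_limit.mp h1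
  choose a ha hax using hx
  exact ⟨α, h2, a, ha, by simpa only [hax] using hlim⟩

omit [CompactSpace K] in
lemma ultranormal (h2 : ∀ x ∉ H, ∀ y ∉ H, x * y⁻¹ ∈ H) :
    ∀ A ∉ relCompact H, ∀ B ∉ relCompact H, ∃ D ∈ relCompact H,
      nbhd (entourage D) A ∩ nbhd (entourage D) B ∉ relCompact H := by
  intro A hA B hB
  obtain ⟨α, hα, a, ha, hla⟩ := exists_seq hA
  obtain ⟨β, hβ, b, hb, hlb⟩ := exists_seq hB
  refine ⟨range fun n => a n * (b n)⁻¹, ?_, fun h => hα (h ?_)⟩
  · have hl : Tendsto (fun n => (a n : K) * (b n : K)⁻¹) atTop (𝓝 (α * β⁻¹)) := hla.mul hlb.inv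
    refine (closure_minimal ?_ hl.isCompact_insert_range.isClosed).trans ?_
    · rintro _ ⟨_, ⟨n, rfl⟩, rfl⟩
      exact Or.inr ⟨n, rfl⟩
    · rintro x (rfl | ⟨n, rfl⟩)
      · exact h2 α hα β hβ
      · exact H.mul_mem (a n).2 (H.inv_mem (b n).2)
  · refine mem_closure_of_tendsto hla (Eventually.of_forall fun n => ⟨a n, ⟨?_, ?_⟩, rfl⟩)
    · exact ⟨a n, ha n, Or.inr rfl⟩
    · exact ⟨b n, hb n, Or.inl ⟨_, ⟨n, rfl⟩, by simp⟩⟩

lemma not_hasLinearBase (hd : Dense (H : Set K)) {α : K} (hα : α ∉ H)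
    (h2 : ∀ x ∉ H, ∀ y ∉ H, x * y⁻¹ ∈ H) : ¬ HasLinearBase (relCompact H) := by
  rintro ⟨𝓑, h𝓑, hch, hb⟩
  have hI := isGroupIdeal_relCompact hd hα
  obtain ⟨β, hβ, a, -, hla⟩ := exists_seq hI.univ_notMem
  choose B hB haB using fun x : H => hb {x} (hI.finite_mem _ (finite_singleton x))
  have cov : ∀ x : H, ∃ n, x ∈ B (a n) := by
    intro x
    by_contra hc
    push Not at hc
    refine hβ (h𝓑 (hB x) (mem_closure_of_tendsto hla (Eventually.of_forall fun n => ?_)))
    refine ⟨a n, ?_, rfl⟩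
    rcases hch.total (hB x) (hB (a n)) with h | h
    · exact absurd (h (haB x rfl)) (hc n)
    · exact h (haB (a n) rfl)
  let C : ℕ × Bool → Set K := fun p =>
    if p.2 then closure (Subtype.val '' B (a p.1))
    else (fun x => x * α⁻¹) ⁻¹' closure (Subtype.val '' B (a p.1))
  have hC : ∀ p, IsClosed (C p) := by
    rintro ⟨n, _ | _⟩
    · exact isClosed_closure.preimage (by fun_prop)
    · exact isClosed_closure
  have hU : ⋃ p, C p = univ := by
    rw [eq_univ_iff_forall]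
    intro x
    by_cases hx : x ∈ H
    · obtain ⟨n, hn⟩ := cov ⟨x, hx⟩
      exact mem_iUnion.mpr ⟨(n, true), subset_closure ⟨_, hn, rfl⟩⟩
    · obtain ⟨n, hn⟩ := cov ⟨x * α⁻¹, h2 x hx α hα⟩
      exact mem_iUnion.mpr ⟨(n, false), subset_closure ⟨_, hn, rfl⟩⟩
  obtain ⟨⟨n, _ | _⟩, hne⟩ := nonempty_interior_of_iUnion_of_closed hC hU
  · obtain ⟨x, hx, hxH⟩ := hd.inter_open_nonempty _ isOpen_interior hne
    have hx' : x ∈ C (n, false) := interior_subset hx
    have : x * α⁻¹ ∈ H := h𝓑 (hB (a n)) hx'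
    exact hα (H.inv_mem_iff.mp ((H.mul_mem_cancel_left hxH).mp this))
  · have hd' : Dense ((fun x => x * α) '' (H : Set K)) :=
      (Homeomorph.mulRight α).surjective.denseRange.dense_image (by fun_prop) hd
    obtain ⟨_, hx, y, hy, rfl⟩ := hd'.inter_open_nonempty _ isOpen_interior hne
    have : y * α ∈ H := h𝓑 (hB (a n)) (interior_subset hx)
    exact hα ((H.mul_mem_cancel_left hy).mp this)

end compact

/-- A dense subgroup of index two of the Cantor group. -/
lemma exists_dense_index_two : ∃ H : Subgroup (Multiplicative (ℕ → ZMod 2)),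
    Dense (H : Set (Multiplicative (ℕ → ZMod 2))) ∧ (∃ α, α ∉ H) ∧
      ∀ x ∉ H, ∀ y ∉ H, x * y⁻¹ ∈ H := by
  have key : ∀ u v : ZMod 2, u ≠ 0 → v ≠ 0 → u + -v = 0 := by decide
  have : Fact (Nat.Prime 2) := ⟨Nat.prime_two⟩
  let p : Submodule (ZMod 2) (ℕ → ZMod 2) :=
    { carrier := {x | ∀ᶠ n in atTop, x n = 0}
      add_mem' := fun {x y} hx hy => (hx.and hy).mono fun n h => by simp [h.1, h.2]
      zero_mem' := Eventually.of_forall fun _ => rfl
      smul_mem' := fun c x hx => hx.mono fun n h => by simp [h] }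
  have hv : (fun _ => 1 : ℕ → ZMod 2) ∉ p := fun h => by
    obtain ⟨n, hn⟩ := h.exists
    exact one_ne_zero hn
  obtain ⟨f, hf, hp⟩ := Submodule.exists_le_ker_of_notMem hv
  refine ⟨AddSubgroup.toSubgroup (LinearMap.ker f).toAddSubgroup, fun x => ?_,
    ⟨Multiplicative.ofAdd fun _ => 1, hf⟩, fun x hx y hy => ?_⟩
  · let s : ℕ → (ℕ → ZMod 2) := fun k n => if n < k then x.toAdd n else 0
    have hs : Tendsto s atTop (𝓝 x.toAdd) := by
      rw [tendsto_pi_nhds]
      intro n
      refine tendsto_const_nhds.congr' ((eventually_gt_atTop n).mono fun k hk => ?_)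
      simp [s, hk]
    refine mem_closure_of_tendsto (f := fun k => Multiplicative.ofAdd (s k))
      (continuous_ofAdd.continuousAt.tendsto.comp hs) (Eventually.of_forall fun k => hp ?_)
    exact (eventually_ge_atTop k).mono fun n hn => if_neg (not_lt.mpr hn)
  · have hx' : f x.toAdd ≠ 0 := hx
    have hy' : f y.toAdd ≠ 0 := hy
    show f (x.toAdd + -y.toAdd) = 0
    rw [map_add, map_neg]
    exact key _ _ hx' hy'

theorem exists_counterexample : ∃ (G : Type) (_ : Group G) (I : Set (Set G)),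
    IsGroupIdeal I ∧ IsNormalBallean (entourage '' I) ∧ ¬ HasLinearBase I := by
  obtain ⟨H, hd, ⟨α, hα⟩, h2⟩ := exists_dense_index_two
  have : FirstCountableTopology (Multiplicative (ℕ → ZMod 2)) :=
    inferInstanceAs (FirstCountableTopology (ℕ → ZMod 2))
  have : T2Space (Multiplicative (ℕ → ZMod 2)) := inferInstanceAs (T2Space (ℕ → ZMod 2))
  exact ⟨H, inferInstance, relCompact H, isGroupIdeal_relCompact hd hα,
    normal_of_ultranormal (isGroupIdeal_relCompact hd hα) (ultranormal h2),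
    not_hasLinearBase hd hα h2⟩

end Pool.Agent.MP_405a2c_gt
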